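import Mathlib
import Pool.Agent.MP_af0b0b_lc.Mg.Main

namespace Pool.Agent.Results.MP_af0b0b_lc.DiameterThree

/-- The graph on the Turing degrees joining distinct degrees at Hausdorff distance `1 / 2` has
diameter exactly `3`. -/
theorem result : Pool.Agent.MP_af0b0b_lc.halfGraph.ediam = 3 :=
  Pool.Agent.MP_af0b0b_lc.ediam_eq_three

end Pool.Agent.Results.MP_af0b0b_lc.DiameterThree
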